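import Pool.Agent.Lib.MP_d4663a_an.Final

set_option autoImplicit false

/-!
# MP_d4663a_an: totally disconnected non-CNED subsets of closed sets

Let `n ≥ 2`. Every closed set `E ⊆ ℝⁿ` that is not CNED contains a compact (in particular closed),
totally disconnected subset `K` that is not CNED. This answers Q1 positively.

The definitions (curves, line integrals, conformal modulus, `Γ(F₁,F₂)`, `𝓕_σ(E)`, CNED) are in
`Pool/Agent/Lib/MP_d4663a_an/Defs.lean`.
-/

namespace Pool.Agent.Results.MP_d4663a_an.TotallyDisconnectedSubset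

open MPd4663a

/-- Every closed non-CNED set `E ⊆ ℝⁿ`, `n ≥ 2`, has a compact totally disconnected subset that is
not CNED. -/
theorem result : ∀ n : ℕ, 2 ≤ n → ∀ E : Set (Eu n), IsClosed E → ¬ CNED E →
    ∃ K ⊆ E, IsCompact K ∧ IsTotallyDisconnected K ∧ ¬ CNED K :=
  main

end Pool.Agent.Results.MP_d4663a_an.TotallyDisconnectedSubset
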